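import Pool.Agent.H73.SMD.Stmts

/-!
Row MAI of the board `smd`
-/

set_option autoImplicit false

open Set Filter Topology MeasureTheory Metric

namespace Pool.SMD

open Pool.PHS Pool.LPC

/-- a linear map of `ℂ²` with determinant zero has rank at most one -/
private lemma mai_rank (g : Cn 2 → Cn 2) (z : Cn 2) (hj : jac g z = 0) :
    Module.finrank ℂ (LinearMap.range (fderiv ℂ g z).toLinearMap) ≤ 1 := by
  have hdet : LinearMap.det (fderiv ℂ g z).toLinearMap = 0 := hj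
  have hlt := LinearMap.range_lt_top_of_det_eq_zero hdet
  have h3 := Submodule.finrank_lt hlt.ne
  have h4 : Module.finrank ℂ (Cn 2) = 2 := by simp
  rw [h4] at h3
  exact Nat.lt_succ_iff.1 h3

/-- the disc of fixed points -/
private lemma mai_disc (D : Set (Cn 2)) (g h : Cn 2 → Cn 2) (z w y₁ : Cn 2) (τ : ℝ)
    (hg : DifferentiableOn ℂ g D) (hball : ball z τ ⊆ D ∩ g ⁻¹' D) (hgz : g z = w)
    (hfix : ∀ y ∈ D, g y ∈ D → h (g y) = g y) (hy₁ : y₁ ∈ ball z τ) (hne : g y₁ ≠ w) :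
    ∃ (γ : ℂ → Cn 2) (t₀ : ℂ) (R : ℝ), 0 < R ∧ DifferentiableOn ℂ γ (ball t₀ R) ∧
      (∀ t ∈ ball t₀ R, γ t ∈ D ∧ h (γ t) = γ t) ∧ deriv γ t₀ ≠ 0 := by
  have hyz : y₁ - z ≠ 0 := by
    intro h0
    apply hne
    rw [← hgz, sub_eq_zero.1 h0]
  have hv : 0 < ‖y₁ - z‖ := norm_pos_iff.2 hyz
  have hvτ : ‖y₁ - z‖ < τ := by rw [← dist_eq_norm]; exact mem_ball.1 hy₁
  have hmem : ∀ t ∈ ball (0 : ℂ) (τ / ‖y₁ - z‖), z + t • (y₁ - z) ∈ ball z τ := by
    intro t ht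
    rw [mem_ball_zero_iff, lt_div_iff₀ hv] at ht
    rw [mem_ball, dist_eq_norm, add_sub_cancel_left, norm_smul]
    exact ht
  have hd : DifferentiableOn ℂ (fun t : ℂ => g (z + t • (y₁ - z)))
      (ball (0 : ℂ) (τ / ‖y₁ - z‖)) := by
    refine hg.comp (t := D) (f := fun t : ℂ => z + t • (y₁ - z)) ?_
      (fun t ht => (hball (hmem t ht)).1)
    exact (((differentiable_id).smul_const _).const_add _).differentiableOn
  have h0 : (0 : ℂ) ∈ ball (0 : ℂ) (τ / ‖y₁ - z‖) :=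
    mem_ball_self (div_pos (hv.trans hvτ) hv)
  have h1 : (1 : ℂ) ∈ ball (0 : ℂ) (τ / ‖y₁ - z‖) := by
    rw [mem_ball_zero_iff, lt_div_iff₀ hv, norm_one, one_mul]
    exact hvτ
  obtain ⟨t₀, ht₀, hder⟩ : ∃ t₀ ∈ ball (0 : ℂ) (τ / ‖y₁ - z‖),
      deriv (fun t : ℂ => g (z + t • (y₁ - z))) t₀ ≠ 0 := by
    by_contra hcon
    push Not at hcon
    have := isOpen_ball.is_const_of_deriv_eq_zero
      (convex_ball (0 : ℂ) (τ / ‖y₁ - z‖)).isPreconnected hd (fun t ht => hcon t ht) h1 h0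
    apply hne
    have e1 : z + (1 : ℂ) • (y₁ - z) = y₁ := by rw [one_smul, add_sub_cancel]
    have e0 : z + (0 : ℂ) • (y₁ - z) = z := by rw [zero_smul, add_zero]
    have h2 : g (z + (1 : ℂ) • (y₁ - z)) = g (z + (0 : ℂ) • (y₁ - z)) := this
    rw [e1, e0, hgz] at h2
    exact h2
  obtain ⟨R, hR, hRb⟩ := Metric.isOpen_iff.1 isOpen_ball t₀ ht₀
  refine ⟨fun t : ℂ => g (z + t • (y₁ - z)), t₀, R, hR, hd.mono hRb, ?_, hder⟩
  intro t ht
  have h3 := hball (hmem t (hRb ht))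
  exact ⟨h3.2, hfix _ h3.1 h3.2⟩

theorem MAI_thm (hIDN : IDNStmt) (hASM : ASMStmt) (hLI1 : LI1Stmt) (hFU2 : FU2Stmt)
    (hRET : RETStmt) (hHHH : HHHStmt) (hKEY : KEYStmt) : MAIStmt := by
  intro r f k z w H hf hk hz hw hlim
  have hDo : IsOpen {z | r z < 0} := isOpen_lt H.c1.continuous continuous_const
  have hDc : IsConnected {z | r z < 0} := H.cn
  have hDb : Bornology.IsBounded {z | r z < 0} := H.bd
  obtain ⟨g, h, k', m, hk', hm, _, hgl, hhl, hgz, hgd, hhd, _, hhm, hfix⟩ :=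
    hLI1 2 {z | r z < 0} f k z w hDo hDc hDb hf hk hz hw hlim
  by_cases hg1 : ∃ z₁ ∈ {z | r z < 0}, jac g z₁ ≠ 0
  · obtain ⟨z₁, hz₁, hj⟩ := hg1
    exact Or.inl (hFU2 2 _ f g k' z₁ hDo hDc hDb hf hk' hgl hz₁ hj)
  by_cases hh1 : ∃ z₁ ∈ {z | r z < 0}, jac h z₁ ≠ 0
  · obtain ⟨z₁, hz₁, hj⟩ := hh1
    exact Or.inl (hFU2 2 _ f h m z₁ hDo hDc hDb hf hm hhl hz₁ hj)
  right
  have hgj : ∀ y ∈ {z | r z < 0}, jac g y = 0 := by
    intro y hy
    by_contra hne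
    exact hg1 ⟨y, hy, hne⟩
  have hhj : ∀ y ∈ {z | r z < 0}, jac h y = 0 := by
    intro y hy
    by_contra hne
    exact hh1 ⟨y, hy, hne⟩
  have hopen : IsOpen ({z | r z < 0} ∩ g ⁻¹' {z | r z < 0}) :=
    hgd.continuousOn.isOpen_inter_preimage hDo hDo
  have hzmem : z ∈ {z | r z < 0} ∩ g ⁻¹' {z | r z < 0} := by
    refine ⟨hz, ?_⟩
    show g z ∈ {z | r z < 0}
    rw [hgz]
    exact hw
  obtain ⟨τ, hτ, hball⟩ := Metric.isOpen_iff.1 hopen z hzmem
  by_cases hcon : ∃ y₁ ∈ ball z τ, g y₁ ≠ w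
  · obtain ⟨y₁, hy₁, hne⟩ := hcon
    obtain ⟨γ, t₀, R, hR, hγd, hγ, hder⟩ :=
      mai_disc {z | r z < 0} g h z w y₁ τ hgd hball hgz hfix hy₁ hne
    obtain ⟨O, hOo, hOm, hOD, hO⟩ := hRET {z | r z < 0} h γ t₀ R hDo hhd hhj hR hγd hγ hder
    obtain ⟨C₀, hCo, hCn, hCD, hC, hCc⟩ :=
      hHHH 2 {z | r z < 0} O h (γ t₀) hDo hhd hOo hOm hOD hO
    have hCeq : C₀ = {z | r z < 0} :=
      hKEY r C₀ f h m H hf (fun y hy => hhl y hy) (fun y hy => hhj y hy) hhd hhm hCo hCn hCD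
        (fun y hy => hC y hy) (fun y hy hy1 hy2 => hCc y hy hy1 hy2)
    have hmaps : MapsTo h {z | r z < 0} {z | r z < 0} := by
      intro y hy
      rw [← hCeq] at hy
      exact (hC y hy).1
    exact hASM 2 {z | r z < 0} f h m hDo hDc hDb hf hm hhl hmaps
      (fun y hy => mai_rank h y (hhj y hy))
  · have hloc : ∀ y ∈ ball z τ, g y = w := by
      intro y hy
      by_contra hne
      exact hcon ⟨y, hy, hne⟩
    have hcst : ∀ y ∈ {z | r z < 0}, g y = w := by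
      intro y hy
      funext i
      refine hIDN 2 (fun y => g y i) (fun _ => w i) {z | r z < 0} (ball z τ) hDo
        hDc.isPreconnected ?_ (differentiableOn_const _) isOpen_ball
        (fun y hy => (hball hy).1) ⟨z, mem_ball_self hτ⟩ ?_ hy
      · exact (differentiableOn_pi.1 hgd) i
      · intro y hy
        show g y i = w i
        rw [hloc y hy]
    have hmaps : MapsTo g {z | r z < 0} {z | r z < 0} := by
      intro y hy
      rw [hcst y hy]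
      exact hw
    exact hASM 2 {z | r z < 0} f g k' hDo hDc hDb hf hk' hgl hmaps
      (fun y hy => mai_rank g y (hgj y hy))

end Pool.SMD
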